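import Mathlib

namespace Pool.Agent.Results.MP_521650_an.Improve

/-- `φ_a = φ_{a_1} ∘ ⋯ ∘ φ_{a_n}` -/
def comp {l : ℕ} (φ : Fin l → ℝ → ℝ) : List (Fin l) → ℝ → ℝ
  | [] => id
  | i :: a => φ i ∘ comp φ a

/-- the set `W_s(z)` -/
def W {l : ℕ} (φ : Fin l → ℝ → ℝ) (X : Set ℝ) (z s : ℝ) : Set ℝ :=
  {x | {a : List (Fin l) | |x - comp φ a z| ≤ Metric.diam (comp φ a '' X) ^ s}.Infinite}

noncomputable def R : ℝ := 1 + √2

noncomputable def φ : Fin 5 → ℝ → ℝ :=
  ![fun x => x / 2, fun x => x / 2 + 1 / 2, fun x => x / 2 + √2 / 2, fun x => x / 2 + R / 2,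
    fun x => R - x / 2]

lemma s1 : 1 < √2 := by rw [Real.lt_sqrt (by norm_num)]; norm_num
lemma s2 : √2 < 2 := by rw [Real.sqrt_lt' (by norm_num)]; norm_num

lemma φ_dist (i : Fin 5) (x y : ℝ) : |φ i x - φ i y| = |x - y| / 2 := by
  have h : φ i x - φ i y = (x - y) / 2 ∨ φ i x - φ i y = -((x - y) / 2) := by
    fin_cases i <;> simp [φ] <;> first | (left; ring1) | (right; ring1)
  rcases h with h | h <;> simp [h, abs_div]

lemma φ_mem (i : Fin 5) {x : ℝ} (h : x ∈ Set.Icc 0 R) : φ i x ∈ Set.Icc 0 R := by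
  have := s1
  obtain ⟨h1, h2⟩ := h
  unfold R at h2
  fin_cases i <;> simp [φ, R] <;> constructor <;> linarith

lemma comp_dist (a : List (Fin 5)) (x y : ℝ) :
    |comp φ a x - comp φ a y| = |x - y| / 2 ^ a.length := by
  induction a with
  | nil => simp [comp]
  | cons i a ih => simp only [comp, Function.comp, φ_dist, ih, List.length_cons]; ring

lemma comp_mem (a : List (Fin 5)) {x : ℝ} (h : x ∈ Set.Icc 0 R) : comp φ a x ∈ Set.Icc 0 R := by
  induction a with
  | nil => exact h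
  | cons i a ih => exact φ_mem i ih

lemma diam_eq (a : List (Fin 5)) : Metric.diam (comp φ a '' Set.Icc 0 R) = R / 2 ^ a.length := by
  have hR : 0 ≤ R := by have := s1; unfold R; linarith
  apply le_antisymm
  · refine Metric.diam_le_of_forall_dist_le (by positivity) ?_
    rintro _ ⟨x, hx, rfl⟩ _ ⟨y, hy, rfl⟩
    rw [Real.dist_eq, comp_dist]
    gcongr
    rw [abs_le]
    constructor <;> linarith [hx.1, hx.2, hy.1, hy.2]
  · have h := Metric.dist_le_diam_of_mem (s := comp φ a '' Set.Icc 0 R)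
      ((Metric.isBounded_Icc 0 R).subset (by rintro _ ⟨x, hx, rfl⟩; exact comp_mem a hx))
      ⟨R, ⟨hR, le_rfl⟩, rfl⟩ ⟨0, ⟨le_rfl, hR⟩, rfl⟩
    rwa [Real.dist_eq, comp_dist, sub_zero, abs_of_nonneg hR] at h

lemma word (n : ℕ) : ∀ j k : ℕ, j < 2 ^ n → k < 2 ^ n →
    ∃ a : List (Fin 5), a.length = n ∧ comp φ a 0 = (j + √2 * k) / 2 ^ n := by
  induction n with
  | zero =>
    intro j k hj hk
    obtain rfl : j = 0 := by omega
    obtain rfl : k = 0 := by omega
    exact ⟨[], rfl, by simp [comp]⟩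
  | succ n ih =>
    intro j k hj hk
    rw [pow_succ] at hj hk
    have h2 : (2 : ℝ) ^ n ≠ 0 := by positivity
    rcases lt_or_ge j (2 ^ n) with h1 | h1 <;> rcases lt_or_ge k (2 ^ n) with h3 | h3
    · obtain ⟨a, ha, h⟩ := ih j k h1 h3
      exact ⟨0 :: a, by simp [ha], by
        rw [comp, Function.comp, h]; simp [φ]; field_simp; ring⟩
    · obtain ⟨k, rfl⟩ := Nat.exists_eq_add_of_le h3
      obtain ⟨a, ha, h⟩ := ih j k h1 (by omega)
      exact ⟨2 :: a, by simp [ha], by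
        rw [comp, Function.comp, h]; simp [φ]; field_simp; ring⟩
    · obtain ⟨j, rfl⟩ := Nat.exists_eq_add_of_le h1
      obtain ⟨a, ha, h⟩ := ih j k (by omega) h3
      exact ⟨1 :: a, by simp [ha], by
        rw [comp, Function.comp, h]; simp [φ]; field_simp; ring⟩
    · obtain ⟨j, rfl⟩ := Nat.exists_eq_add_of_le h1
      obtain ⟨k, rfl⟩ := Nat.exists_eq_add_of_le h3
      obtain ⟨a, ha, h⟩ := ih j k (by omega) (by omega)
      exact ⟨3 :: a, by simp [ha], by
        rw [comp, Function.comp, h]; simp [φ, R]; field_simp; ring⟩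

lemma approx (M : ℕ) : ∃ q : ℕ, M < q ∧ ∀ T : ℝ, ∃ (i : ℕ) (j : ℤ), i < q ∧
    |j + √2 * i - T| ≤ 2 / q := by
  have h := Real.infinite_rat_abs_sub_lt_one_div_den_sq_of_irrational irrational_sqrt_two
  obtain ⟨r, hr, hM⟩ : ∃ r : ℚ, |√2 - r| < 1 / (r.den : ℝ) ^ 2 ∧ M < r.den := by
    by_contra hc
    push Not at hc
    refine h (((Set.finite_Icc (0 : ℤ) (3 * M)).prod (Set.finite_Iic M)).subset ?_
      |>.of_finite_image (f := fun r : ℚ => (r.num, r.den)) ?_)
    · rintro _ ⟨r, hr, rfl⟩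
      have h1 := hc r hr
      have h2 : (1 : ℝ) ≤ r.den := by exact_mod_cast r.pos
      have h3 : 1 / (r.den : ℝ) ^ 2 ≤ 1 := by
        rw [div_le_one (by positivity)]; nlinarith
      have h4 := abs_lt.1 (lt_of_lt_of_le hr h3)
      have h5 : (0 : ℝ) ≤ r := by linarith [s1]
      have h6 : (r : ℝ) ≤ 3 := by linarith [s2]
      have h7 : (r.num : ℝ) = r * r.den := by exact_mod_cast (Rat.mul_den_eq_num r).symm
      have h8 : (r.den : ℝ) ≤ M := by exact_mod_cast h1
      refine ⟨⟨by exact_mod_cast Rat.num_nonneg.2 (by exact_mod_cast h5), ?_⟩, h1⟩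
      have : (r.num : ℝ) ≤ 3 * M := by rw [h7]; nlinarith
      exact_mod_cast this
    · intro a _ b _ hab
      simp only [Prod.mk.injEq] at hab
      exact Rat.ext hab.1 hab.2
  refine ⟨r.den, hM, fun T => ?_⟩
  have hq : (0 : ℝ) < r.den := by exact_mod_cast r.pos
  have hq' : (0 : ℤ) < r.den := by exact_mod_cast r.pos
  obtain ⟨u, v, huv⟩ : IsCoprime r.num (r.den : ℤ) := by
    rw [Int.isCoprime_iff_gcd_eq_one]; exact r.reduced
  set m := ⌊T * r.den⌋ with hm
  obtain ⟨i, hi⟩ := Int.eq_ofNat_of_zero_le (Int.emod_nonneg (m * u) hq'.ne')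
  have h1 := Int.emod_lt_of_pos (m * u) hq'
  have h2 := Int.emod_add_mul_ediv (m * u) r.den
  rw [hi] at h1 h2
  refine ⟨i, m * v + m * u / r.den * r.num, by exact_mod_cast h1, ?_⟩
  have h3 : (m * v + m * u / r.den * r.num) * r.den + r.num * i = m := by
    linear_combination m * huv + r.num * h2
  have h4 : ((m * v + m * u / r.den * r.num : ℤ) : ℝ) * r.den + r.num * i = m := by
    exact_mod_cast h3
  have h7 : (r.num : ℝ) = r * r.den := by exact_mod_cast (Rat.mul_den_eq_num r).symm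
  have h5 : ((m * v + m * u / r.den * r.num : ℤ) : ℝ) + √2 * i - T =
      (m - T * r.den) / r.den + (√2 - r) * i := by
    rw [← h4, h7]; field_simp; ring
  have h6 : |(m : ℝ) - T * r.den| ≤ 1 := by
    rw [abs_le]
    constructor <;> linarith [Int.floor_le (T * r.den), Int.lt_floor_add_one (T * r.den)]
  have h8 : (i : ℝ) ≤ r.den := by exact_mod_cast h1.le
  rw [h5]
  calc _ ≤ |(m - T * r.den) / r.den| + |(√2 - r) * i| := abs_add_le _ _
    _ ≤ 1 / r.den + 1 / (r.den : ℝ) ^ 2 * r.den := by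
        rw [abs_div, abs_mul, abs_of_pos hq, Nat.abs_cast]
        gcongr
    _ = 2 / r.den := by field_simp; ring

lemma interior {x : ℝ} (h0 : 0 < x) (h1 : x < R) (N : ℕ) :
    ∃ a : List (Fin 5), N < a.length ∧ |x - comp φ a 0| ^ 2 ≤ (R / 2 ^ a.length) ^ 3 := by
  have a1 := s1
  have a2 := s2
  have hR : 1 < R := by unfold R; linarith
  obtain ⟨u, rfl⟩ : ∃ u, x = u * R := ⟨x / R, by field_simp⟩
  have u0 : 0 < u := by by_contra h; nlinarith
  have u1 : u < 1 := by nlinarith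
  obtain ⟨δ, d0, d1, d2⟩ : ∃ δ : ℝ, 0 < δ ∧ 4 * δ ≤ u ∧ 4 * δ ≤ 1 - u :=
    ⟨min u (1 - u) / 4, by have := lt_min u0 (sub_pos.2 u1); positivity,
      by linarith [min_le_left u (1 - u)], by linarith [min_le_right u (1 - u)]⟩
  obtain ⟨q, hq, H⟩ := approx (2 ^ N + ⌈16 / δ⌉₊)
  have q1 : (2 : ℝ) ^ N + 16 / δ < q := by
    have : ((2 ^ N + ⌈16 / δ⌉₊ : ℕ) : ℝ) < q := by exact_mod_cast hq
    push_cast at this
    linarith [Nat.le_ceil (16 / δ)]
  have p1 : (1 : ℝ) ≤ 2 ^ N := one_le_pow₀ (by norm_num)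
  have p2 : 0 < 16 / δ := by positivity
  have q2 : 16 < q * δ := by rw [← div_lt_iff₀ d0]; linarith
  have q0 : (1 : ℝ) < q := by linarith
  obtain ⟨n, n1, n2⟩ := exists_nat_pow_near (x := 4 * q / δ) (y := 2)
    (by rw [le_div_iff₀ d0]; linarith) (by norm_num)
  rw [le_div_iff₀ d0] at n1
  rw [div_lt_iff₀ d0, pow_succ] at n2
  have P0 : (0 : ℝ) < 2 ^ n := by positivity
  set P : ℝ := 2 ^ n with hP
  obtain ⟨i, j, hi, hj⟩ := H (u * R * P - √2 * ⌈u * P⌉₊)
  have c1 := Nat.le_ceil (u * P)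
  have c2 := Nat.ceil_lt_add_one (show 0 ≤ u * P by positivity)
  have i1 : (i : ℝ) + 1 ≤ q := by exact_mod_cast hi
  have i0 : (0 : ℝ) ≤ i := by positivity
  have e1 : (2 : ℝ) / q ≤ 2 := by rw [div_le_iff₀ (by linarith)]; linarith
  obtain ⟨j1, j2⟩ := abs_le.1 (hj.trans e1)
  unfold R at j1 j2
  have j3 : (0 : ℝ) ≤ j := by nlinarith
  have j4 : (j : ℝ) < P := by nlinarith
  obtain ⟨j, rfl⟩ := Int.eq_ofNat_of_zero_le (show 0 ≤ j by exact_mod_cast j3)
  obtain ⟨a, ha, h⟩ := word n j (⌈u * P⌉₊ + i) (by rw [hP] at j4; exact_mod_cast j4) (by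
    have : (⌈u * P⌉₊ : ℝ) + i < 2 ^ n := by nlinarith
    exact_mod_cast this)
  refine ⟨a, ?_, ?_⟩
  · rw [ha, ← pow_lt_pow_iff_right₀ (show (1 : ℝ) < 2 by norm_num)]
    nlinarith
  · have e2 : |u * R - comp φ a 0| =
        |((j : ℤ) : ℝ) + √2 * i - (u * R * P - √2 * ⌈u * P⌉₊)| / P := by
      rw [h, ← abs_of_pos P0, ← abs_div, abs_of_pos P0, ← abs_neg]
      congr 1
      push_cast
      field_simp
      ring
    have e3 : (2 / q) ^ 2 ≤ 1 / P := by
      rw [div_pow, div_le_div_iff₀ (by positivity) P0]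
      nlinarith
    rw [e2, ha, ← hP]
    calc _ ≤ (2 / q / P) ^ 2 := by gcongr
      _ = (2 / q) ^ 2 / P ^ 2 := by ring
      _ ≤ 1 / P / P ^ 2 := by gcongr
      _ = (1 / P) ^ 3 := by field_simp
      _ ≤ _ := by gcongr

theorem result : ∃ (l : ℕ) (φ : Fin l → ℝ → ℝ) (X : Set ℝ) (z s : ℝ), 2 ≤ l ∧
    (∀ i, Function.Injective (φ i) ∧ ∃ K, ContractingWith K (φ i)) ∧
    IsCompact X ∧ X.Nontrivial ∧ X = ⋃ i, φ i '' X ∧ z ∈ X ∧ 1 < s ∧ W φ X z s = X := by
  have hR : 1 < R := by have := s1; unfold R; linarith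
  have hR3 : R < 3 := by have := s2; unfold R; linarith
  refine ⟨5, φ, Set.Icc 0 R, 0, 3 / 2, by norm_num, fun i => ⟨fun x y h => ?_, 1 / 2,
    by norm_num, LipschitzWith.of_dist_le_mul fun x y => ?_⟩, isCompact_Icc,
    ⟨0, ⟨le_rfl, by linarith⟩, R, ⟨by linarith, le_rfl⟩, by linarith⟩, ?_,
    ⟨le_rfl, by linarith⟩, by norm_num, ?_⟩
  · have := φ_dist i x y
    rw [h, sub_self, abs_zero] at this
    exact sub_eq_zero.1 (abs_eq_zero.1 (by linarith))
  · rw [Real.dist_eq, Real.dist_eq, φ_dist]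
    push_cast
    linarith
  · refine Set.Subset.antisymm (fun x hx => ?_) ?_
    · rw [Set.mem_iUnion]
      rcases le_total x (R / 2) with h | h
      · exact ⟨0, 2 * x, ⟨by linarith [hx.1], by linarith⟩, by simp [φ]⟩
      · exact ⟨3, 2 * x - R, ⟨by linarith, by linarith [hx.2]⟩, by simp [φ]; ring⟩
    · rintro _ ⟨_, ⟨i, rfl⟩, x, hx, rfl⟩
      exact φ_mem i hx
  · ext x
    simp only [W, diam_eq, Set.mem_ofPred_eq]
    constructor
    · intro h
      rw [← isClosed_Icc.closure_eq, Metric.mem_closure_iff]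
      intro ε hε
      obtain ⟨N, hN⟩ := pow_unbounded_of_one_lt (3 + 3 / ε) (show (1 : ℝ) < 2 by norm_num)
      obtain ⟨a, ha, hl⟩ := h.exists_notMem_finite (List.finite_length_le (Fin 5) N)
      simp only [Set.mem_ofPred_eq, not_le] at ha hl
      have h1 : (2 : ℝ) ^ N ≤ 2 ^ a.length := pow_le_pow_right₀ (by norm_num) hl.le
      have h2 : 0 < 3 / ε := by positivity
      have h3 : (R / 2 ^ a.length) ^ (3 / 2 : ℝ) ≤ (R / 2 ^ a.length) ^ (1 : ℝ) :=
        Real.rpow_le_rpow_of_exponent_ge (by positivity)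
          (by rw [div_le_one (by positivity)]; linarith) (by norm_num)
      rw [Real.rpow_one] at h3
      refine ⟨_, comp_mem a ⟨le_rfl, by linarith⟩, (ha.trans h3).trans_lt ?_⟩
      rw [div_lt_iff₀ (by positivity)]
      have h4 : 3 / ε < 2 ^ a.length := by linarith
      rw [div_lt_iff₀ hε] at h4
      linarith
    · intro hx
      have key : ∀ N, ∃ a : List (Fin 5), N < a.length ∧
          |x - comp φ a 0| ^ 2 ≤ (R / 2 ^ a.length) ^ 3 := fun N => by
        obtain ⟨a, ha, h⟩ := word (N + 1) 0 0 (by positivity) (by positivity)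
        rcases hx.1.eq_or_lt with rfl | h0
        · exact ⟨a, by omega, by simp [h]; positivity⟩
        rcases hx.2.eq_or_lt with rfl | h1
        · exact ⟨4 :: a, by simp; omega, by
            rw [comp, Function.comp, h]; simp [φ]; positivity⟩
        · exact interior h0 h1 N
      refine Set.Infinite.of_image List.length (Set.infinite_of_forall_exists_gt fun N => ?_)
      obtain ⟨a, ha, h⟩ := key N
      refine ⟨_, ⟨a, ?_, rfl⟩, ha⟩
      have h1 : ((R / 2 ^ a.length) ^ (3 / 2 : ℝ)) ^ 2 = (R / 2 ^ a.length) ^ 3 := by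
        rw [← Real.rpow_natCast, ← Real.rpow_mul (by positivity), ← Real.rpow_natCast]
        norm_num
      exact (abs_le_of_sq_le_sq' (h.trans_eq h1.symm) (by positivity)).2

end Pool.Agent.Results.MP_521650_an.Improve
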